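import Mathlib

set_option autoImplicit false
set_option linter.unusedSectionVars false

namespace Pool.Agent.H.MP_cc2bbb_co

open Finset SimpleGraph

def sw {D : ℕ} (g : ℕ) (i : Fin D) (l : List (Fin D)) : List (Fin D) :=
  if l.head? = some i then (if l.tail.head? = some i then l else l.tail)
  else if l.length < g then i :: l else l

theorem sw_len {D : ℕ} (g : ℕ) (i : Fin D) (l : List (Fin D)) (h : l.length ≤ g) :
    (sw g i l).length ≤ g := by
  unfold sw
  split_ifs
  exacts [h, by rw [List.length_tail]; omega, by rw [List.length_cons]; omega, h]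

theorem sw_sw {D : ℕ} (g : ℕ) (i : Fin D) (l : List (Fin D)) (h : l.length ≤ g) :
    sw g i (sw g i l) = l := by
  by_cases a : l.head? = some i
  · by_cases b : l.tail.head? = some i
    · simp only [sw, a, b, if_true]
    · obtain _ | ⟨j, r⟩ := l
      · simp at a
      · obtain rfl : j = i := by simpa using a
        have : r.length < g := h
        rw [List.tail_cons] at b
        simp [sw, b, this]
  · by_cases b : l.length < g <;> simp [sw, a, b]

/-- Involutions of a finite set with no short relations. -/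
theorem grp (D g : ℕ) : ∃ (Γ : Type) (_ : Fintype Γ) (_ : Nonempty Γ) (s : Fin D → Γ → Γ)
    (c : Γ → Γ → List (Fin D)), (∀ i x, s i (s i x) = x) ∧ (∀ x, c x x = []) ∧
      ∀ x y i, (c x y).head? ≠ some i → (c x y).length < g → c (s i x) y = i :: c x y := by
  classical
  let W := {l : List (Fin D) // l.length ≤ g}
  have : Finite W := (List.finite_length_le _ g).to_subtype
  have := Fintype.ofFinite W
  let σ : Fin D → Equiv.Perm W := fun i => Function.Involutive.toPerm
    (fun l => ⟨sw g i l.1, sw_len g i _ l.2⟩) fun l => Subtype.ext (sw_sw g i _ l.2)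
  refine ⟨Equiv.Perm W, inferInstance, ⟨1⟩, fun i x => σ i * x,
    fun x y => ((x * y⁻¹) ⟨[], by simp⟩).1, fun i x => ?_, by simp, fun x y i a b => ?_⟩
  · exact Equiv.ext fun l => Subtype.ext (sw_sw g i _ (x l).2)
  · change sw g i _ = _
    exact (if_neg a).trans (if_pos b)

theorem disc {ι J : Type} [Fintype ι] [Fintype J] (t : J → ι → ℝ) (ht : ∀ j e, |t j e| ≤ 1)
    (l : ℝ) : ∃ τ : ι → Bool, ∀ j, Real.exp (∑ e, l * t j e * if τ e then 1 else -1) ≤
      Fintype.card J * Real.exp (l ^ 2 / 2) ^ Fintype.card ι := by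
  classical
  obtain ⟨τ, -, h⟩ := exists_le_of_sum_le (s := (univ : Finset (ι → Bool))) univ_nonempty
    (f := fun τ => ∑ j, Real.exp (∑ e, l * t j e * if τ e then 1 else -1))
    (g := fun _ => Fintype.card J * Real.exp (l ^ 2 / 2) ^ Fintype.card ι) (by
      rw [sum_comm, sum_const, nsmul_eq_mul, mul_left_comm, ← nsmul_eq_mul]
      refine sum_le_card_nsmul _ _ _ fun j _ => ?_
      simp only [Real.exp_sum]
      rw [← Fintype.piFinset_univ, ← prod_univ_sum (fun _ => univ)
        fun e (b : Bool) => Real.exp (l * t j e * if b then 1 else -1)]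
      simp only [Fintype.piFinset_univ, card_univ, Fintype.card_fun, Fintype.card_bool]
      push_cast
      rw [← mul_pow, ← card_univ, ← prod_const]
      refine prod_le_prod (fun _ _ => by positivity) fun e _ => ?_
      have a := Real.cosh_le_exp_half_sq (l * t j e)
      have b : Real.exp ((l * t j e) ^ 2 / 2) ≤ Real.exp (l ^ 2 / 2) := by
        have := (sq_le_one_iff_abs_le_one _).2 (ht j e)
        exact Real.exp_le_exp.2 (by nlinarith [sq_nonneg l])
      rw [Real.cosh_eq] at a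
      simp
      linarith)
  exact ⟨τ, fun j => (single_le_sum (f := fun j => Real.exp (∑ e, l * t j e * if τ e then 1 else -1))
    (fun _ _ => (Real.exp_pos _).le) (mem_univ j)).trans h⟩

variable {Γ : Type} {D : ℕ} (s : Fin D → Γ → Γ) (τ : Γ × Fin D → Bool)

abbrev U := (Γ × Bool) ⊕ {q : (Γ × Fin D) × Bool // q.2 = true → τ q.1 = false}

def en (e : Γ × Fin D) (b : Bool) : Γ × Bool := (if b then s e.2 e.1 else e.1, b)

def lo (e : Γ × Fin D) : U τ := .inr ⟨(e, false), by simp⟩

def hi (e : Γ × Fin D) : U τ :=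
  if h : τ e = false then .inr ⟨(e, true), fun _ => h⟩ else .inl (en s e true)

def G : SimpleGraph (U τ) := fromRel fun x y =>
  (∃ q, x = .inr q ∧ y = .inl (en s q.1.1 q.1.2)) ∨ ∃ e, x = lo τ e ∧ y = hi s τ e

def pr : U τ → Γ × Bool
  | .inl v => v
  | .inr q => en s q.1.1 q.1.2

theorem pr_hi (e : Γ × Fin D) : pr s τ (hi s τ e) = en s e true := by
  unfold hi
  split_ifs <;> rfl

def Coll (d : Sym2 (U τ)) : Prop := ∃ q, d = s(.inr q, .inl (en s q.1.1 q.1.2))

theorem step (hs : ∀ i x, s i (s i x) = x) {x y : U τ} (h : (G s τ).Adj x y) :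
    (pr s τ x = pr s τ y ∧ Coll s τ s(x, y)) ∨ ∃ e b, s(x, y) = s(lo τ e, hi s τ e) ∧
      pr s τ x = en s e (!b) ∧ pr s τ y = en s e b ∧ (pr s τ x).1 = s e.2 (pr s τ y).1 := by
  obtain (⟨q, rfl, rfl⟩ | ⟨e, rfl, rfl⟩) | ⟨q, rfl, rfl⟩ | ⟨e, rfl, rfl⟩ := h.2
  · exact Or.inl ⟨rfl, q, rfl⟩
  · exact Or.inr ⟨e, true, rfl, rfl, pr_hi s τ e, by rw [pr_hi]; exact (hs _ _).symm⟩
  · exact Or.inl ⟨rfl, q, Sym2.eq_swap⟩
  · exact Or.inr ⟨e, false, Sym2.eq_swap, pr_hi s τ e, rfl, by rw [pr_hi]; rfl⟩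

theorem girth (g : ℕ) (c : Γ → Γ → List (Fin D)) (hs : ∀ i x, s i (s i x) = x)
    (h0 : ∀ x, c x x = [])
    (hc : ∀ x y i, (c x y).head? ≠ some i → (c x y).length < g → c (s i x) y = i :: c x y) :
    (g : ℕ∞) ≤ (G s τ).egirth := by
  have inv : ∀ x y (p : (G s τ).Walk x y), p.edges.Nodup → p.length ≤ g →
      (c (pr s τ x).1 (pr s τ y).1).length ≤ p.length ∧
      (c (pr s τ x).1 (pr s τ y).1 = [] → ∀ d ∈ p.edges, Coll s τ d) ∧
      ∀ i, (c (pr s τ x).1 (pr s τ y).1).head? = some i →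
        ∃ e b, e.2 = i ∧ pr s τ x = en s e b ∧ s(lo τ e, hi s τ e) ∈ p.edges := by
    intro x y p
    induction p with
    | nil => simp [h0]
    | cons h p ih =>
      intro n l
      rw [Walk.edges_cons, List.nodup_cons] at n
      rw [Walk.length_cons] at l ⊢
      obtain ⟨i1, i2, i3⟩ := ih n.2 (by omega)
      obtain ⟨a, b⟩ | ⟨e, b, e1, e2, e3, e4⟩ := step s τ hs h
      · rw [a]
        refine ⟨by omega, fun z d hd => ?_, fun i hi => ?_⟩
        · obtain rfl | r := List.mem_cons.1 hd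
          exacts [b, i2 z d r]
        · obtain ⟨e, b, r⟩ := i3 i hi
          exact ⟨e, b, r.1, r.2.1, List.mem_cons_of_mem _ r.2.2⟩
      rw [e4, hc _ _ _ (fun z => ?_) (by omega)]
      · refine ⟨by simpa using i1, by simp, fun i hi => ⟨e, !b, by simpa using hi, e2, ?_⟩⟩
        exact e1 ▸ List.mem_cons_self
      obtain ⟨⟨x', i⟩, b', rfl, r, t⟩ := i3 _ z
      rw [e3, en, en, Prod.mk.injEq] at r
      obtain ⟨r, rfl⟩ := r
      obtain rfl : x' = e.1 := by
        cases b
        · exact r.symm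
        · exact (hs _ _).symm.trans ((congrArg (s e.2) r.symm).trans (hs _ _))
      exact n.1 (e1 ▸ t)
  refine le_egirth.2 fun a w hw => Nat.cast_le.2 ?_
  by_contra l
  have k := (inv a a w hw.edges_nodup (by omega)).2.1 (h0 _)
  have n := hw.edges_nodup
  have t := hw.three_le_length
  obtain _ | ⟨_, _ | ⟨_, _ | ⟨_, p⟩⟩⟩ := w
  · simp at t
  · simp at t
  · simp at t
  simp only [Walk.edges_cons, List.mem_cons, forall_eq_or_imp, List.nodup_cons, not_or] at k n
  obtain ⟨⟨q1, k1⟩, ⟨q2, k2⟩, ⟨q3, k3⟩, -⟩ := k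
  have n1 := n.1.1
  have n2 := n.2.1.1
  clear * - k1 k2 k3 n1 n2
  simp only [Sym2.eq_iff] at *
  grind

theorem adj1 (q) : (G s τ).Adj (.inr q) (.inl (en s q.1.1 q.1.2)) :=
  ⟨by simp, Or.inl (Or.inl ⟨q, rfl, rfl⟩)⟩

theorem adj2 (e : Γ × Fin D) : (G s τ).Adj (lo τ e) (hi s τ e) :=
  ⟨by unfold lo hi; split_ifs <;> simp, Or.inl (Or.inr ⟨e, rfl, rfl⟩)⟩

theorem nb_lo (e : Γ × Fin D) (u : U τ) (h : (G s τ).Adj (lo τ e) u) :
    u = .inl (en s e false) ∨ u = hi s τ e := by
  obtain (⟨q, a, rfl⟩ | ⟨e', a, rfl⟩) | ⟨q, rfl, a⟩ | ⟨e', rfl, a⟩ := h.2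
  · obtain rfl := Sum.inr.inj a
    exact Or.inl rfl
  · obtain rfl : e = e' := by simpa [lo] using a
    exact Or.inr rfl
  · cases a
  · unfold lo hi at a
    split_ifs at a
    simp at a

theorem nb_hi (e : Γ × Fin D) (he : τ e = false) (u : U τ) (h : (G s τ).Adj (hi s τ e) u) :
    u = .inl (en s e true) ∨ u = lo τ e := by
  rw [hi, dif_pos he] at h
  obtain (⟨q, a, rfl⟩ | ⟨e', a, rfl⟩) | ⟨q, rfl, a⟩ | ⟨e', rfl, a⟩ := h.2
  · obtain rfl := Sum.inr.inj a
    exact Or.inl rfl
  · simp [lo] at a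
  · cases a
  · unfold hi at a
    split_ifs at a
    obtain rfl : e = e' := by simpa using a
    exact Or.inr rfl

theorem two (hs : ∀ i x, s i (s i x) = x) (hD : 1 < D) (v : U τ) :
    ∃ a b, (G s τ).Adj v a ∧ (G s τ).Adj v b ∧ a ≠ b := by
  obtain ⟨x, b⟩ | ⟨⟨e, _ | _⟩, h⟩ := v
  · have : ∀ i, ∃ q : {q : (Γ × Fin D) × Bool // q.2 = true → τ q.1 = false}, q.1.1.2 = i ∧
        (G s τ).Adj (.inl (x, b)) (.inr q) := fun i => by
      cases b
      · exact ⟨⟨((x, i), false), by simp⟩, rfl, (adj1 s τ ⟨((x, i), false), by simp⟩).symm⟩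
      have r : en s (s i x, i) true = (x, true) := by simp [en, hs]
      by_cases c : τ (s i x, i) = false
      · exact ⟨⟨((s i x, i), true), fun _ => c⟩, rfl,
          r ▸ (adj1 s τ ⟨((s i x, i), true), fun _ => c⟩).symm⟩
      · have := (adj2 s τ (s i x, i)).symm
        rw [hi, dif_neg c, r] at this
        exact ⟨_, rfl, this⟩
    obtain ⟨q, a, b⟩ := this ⟨0, by omega⟩
    obtain ⟨q', a', b'⟩ := this ⟨1, hD⟩
    refine ⟨_, _, b, b', fun r => ?_⟩
    rw [Sum.inr.inj r, a'] at a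
    simp at a
  · refine ⟨_, _, adj1 s τ _, adj2 s τ e, ?_⟩
    unfold hi
    split_ifs <;> simp [en]
  · have := (adj2 s τ e).symm
    rw [hi, dif_pos (h rfl)] at this
    exact ⟨_, _, adj1 s τ _, this, by simp [lo]⟩

open Classical in
theorem edge (X : U τ → Prop) (hX : ∀ v, X v ∨ ∃ u, (G s τ).Adj v u ∧ X u) (e : Γ × Fin D) :
    (1 : ℝ) + ((if X (.inl (en s e false)) ∧ X (.inl (en s e true)) then 1 else 0) *
      if τ e then 1 else -1) ≤ (if X (lo τ e) then 1 else 0) + (if X (hi s τ e) then 1 else 0) +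
        if τ e then (if X (.inl (en s e false)) then 1 else 0) else 0 := by
  have a : X (lo τ e) ∨ X (.inl (en s e false)) ∨ X (hi s τ e) :=
    (hX _).imp_right fun ⟨u, p, q⟩ => by
      obtain rfl | rfl := nb_lo s τ e u p
      exacts [Or.inl q, Or.inr q]
  cases c : τ e
  · have b : X (hi s τ e) ∨ X (.inl (en s e true)) ∨ X (lo τ e) :=
      (hX _).imp_right fun ⟨u, p, q⟩ => by
        obtain rfl | rfl := nb_hi s τ e c u p
        exacts [Or.inl q, Or.inr q]
    revert a b
    generalize X (lo τ e) = p, X (hi s τ e) = q, X (.inl (en s e false)) = r,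
      X (.inl (en s e true)) = t
    by_cases p <;> by_cases q <;> by_cases r <;> by_cases t <;> simp [*]
  · rw [show hi s τ e = .inl (en s e true) from dif_neg (by simp [c])] at a ⊢
    revert a
    generalize X (lo τ e) = p, X (.inl (en s e false)) = r, X (.inl (en s e true)) = t
    by_cases p <;> by_cases r <;> by_cases t <;> simp [*]

open Classical in
theorem main (g : ℕ) (δ : ℝ) (hδ : 0 < δ) : ∃ (V : Type) (_ : Fintype V) (G : SimpleGraph V),
    G.minDegree = 2 ∧ (g : ℕ∞) ≤ G.egirth ∧ ∀ (a b : ℕ) (φ : V → Finset (Fin a)),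
      (∀ v, #(φ v) = b) → (∀ i v, i ∈ φ v ∨ ∃ u, G.Adj v u ∧ i ∈ φ u) →
        a * (1 - δ) ≤ b * (5 / 2 + δ / 2) := by
  obtain ⟨D, hD⟩ := exists_nat_gt (max 1 (6 / δ ^ 2))
  rw [max_lt_iff, div_lt_iff₀ (by positivity)] at hD
  have D1 : 1 < D := by exact_mod_cast hD.1
  obtain ⟨Γ, _, ⟨x⟩, s, c, hs, h0, hc⟩ := grp D g
  obtain ⟨τ, hτ⟩ := disc (fun (j : Finset (Γ × Bool) × Bool) (e : Γ × Fin D) =>
    (if j.2 then 1 else -1) * if en s e false ∈ j.1 ∧ en s e true ∈ j.1 then 1 else 0)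
    (fun j e => by split_ifs <;> simp) δ
  have np : (1 : ℝ) ≤ Fintype.card Γ := Nat.one_le_cast.2 (Fintype.card_pos_iff.2 ⟨x⟩)
  have hd : ∀ (S : Finset (Γ × Bool)), |∑ e, (if en s e false ∈ S ∧ en s e true ∈ S then (1 : ℝ)
      else 0) * if τ e then 1 else -1| ≤ δ * (Fintype.card Γ * D) := fun S => by
    have k := fun b => Real.exp_le_exp.1 ((hτ (S, b)).trans (show _ ≤
        Real.exp (3 * Fintype.card Γ + (Fintype.card Γ * D : ℕ) * (δ ^ 2 / 2)) by
      rw [Real.exp_add, Real.exp_nat_mul]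
      simp only [Fintype.card_prod, Fintype.card_finset, Fintype.card_bool, Fintype.card_fin]
      gcongr
      have : (2 : ℝ) ≤ Real.exp 1 := by linarith [Real.add_one_le_exp 1]
      push_cast
      rw [← pow_succ]
      refine (pow_le_pow_left₀ (by norm_num) this _).trans ?_
      rw [← Real.exp_nat_mul, Real.exp_le_exp]
      push_cast
      linarith))
    have k1 := k true
    have k2 := k false
    simp only [mul_assoc, ← mul_sum, if_true, Bool.false_eq_true, if_false] at k1 k2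
    push_cast at k1 k2
    have := mul_le_mul_of_nonneg_left hD.2.le (zero_le_one.trans np)
    rw [abs_le]
    constructor <;> refine le_of_mul_le_mul_left ?_ hδ <;> nlinarith
  have e₀ : Γ × Fin D := (x, ⟨0, by omega⟩)
  have : Nonempty (U τ) := ⟨lo τ e₀⟩
  refine ⟨U τ, inferInstance, G s τ, le_antisymm ((minDegree_le_degree _ (lo τ e₀)).trans
    ((card_le_card (t := {.inl (en s e₀ false), hi s τ e₀}) fun u hu => ?_).trans card_le_two))
    (le_minDegree_of_forall_le_degree _ _ fun v => ?_), girth s τ g c hs h0 hc,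
    fun a b φ hb hφ => ?_⟩
  · simpa using nb_lo s τ e₀ u ((mem_neighborFinset _ _ _).1 hu)
  · obtain ⟨a, b, p, q, r⟩ := two s τ hs D1 v
    exact one_lt_card.2 ⟨a, by simpa using p, b, by simpa using q, r⟩
  have l : ∀ i : Fin a, Fintype.card Γ * D * (1 - δ) ≤ ∑ e, ((if i ∈ φ (lo τ e) then (1 : ℝ) else 0)
      + (if i ∈ φ (hi s τ e) then 1 else 0) +
        if τ e then (if i ∈ φ (.inl (en s e false)) then 1 else 0) else 0) := fun i => by
    have k := sum_le_sum fun e (_ : e ∈ univ) => edge s τ (fun v => i ∈ φ v) (hφ i) e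
    have := (abs_le.1 (hd {v | i ∈ φ (.inl v)})).1
    simp only [mem_filter, mem_univ, true_and] at this
    rw [sum_add_distrib] at k
    simp only [sum_const, card_univ, Fintype.card_prod, Fintype.card_fin, nsmul_eq_mul] at k
    push_cast at k
    refine le_trans ?_ (k.trans_eq (sum_congr rfl fun e _ => by congr))
    refine le_trans ?_ (add_le_add_right (this.trans_eq (sum_congr rfl fun e _ => by congr)) _)
    linarith
  have l := sum_le_sum fun i (_ : i ∈ univ) => l i
  have r : ∀ e, (∑ i : Fin a, ((if i ∈ φ (lo τ e) then (1 : ℝ) else 0)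
      + (if i ∈ φ (hi s τ e) then 1 else 0) +
        if τ e then (if i ∈ φ (.inl (en s e false)) then 1 else 0) else 0)) =
      b * (5 / 2) + b / 2 * if τ e then 1 else -1 := fun e => by
    cases τ e <;> simp [sum_add_distrib, hb] <;> ring
  rw [sum_comm, sum_congr rfl fun e _ => r e, sum_add_distrib, ← mul_sum _ _ ((b : ℝ) / 2)] at l
  have := (abs_le.1 (hd univ)).2
  simp only [mem_univ, and_self, if_true, one_mul, sum_const, card_univ, Fintype.card_prod,
    Fintype.card_fin, nsmul_eq_mul] at this l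
  push_cast at l
  have p : (0 : ℝ) < Fintype.card Γ * D := mul_pos (by linarith) (by linarith)
  have := mul_le_mul_of_nonneg_left this (by positivity : (0 : ℝ) ≤ b / 2)
  refine le_of_mul_le_mul_left ?_ p
  linarith

end Pool.Agent.H.MP_cc2bbb_co
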